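import Pool.Agent.Run7.h717.SB.Stm

/-! Project SB (helper717), piece FIN. -/

set_option autoImplicit false

namespace Run7.h531.SB

open MeasureTheory ProbabilityTheory Filter Topology
open scoped ENNReal
open Pool.Agent.Run7.h717.SA
open Pool.Agent.Run7.h717.SB

instance probGG (n d : ℕ) : IsProbabilityMeasure (GG n d) := by
  unfold GG
  infer_instance

theorem ang_nonneg {d : ℕ} (x : Fin d → E d) : 0 ≤ ang x := measureReal_nonneg

theorem ang_le {d : ℕ} (x : Fin d → E d) : ang x ≤ 1 := by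
  unfold ang Measure.real
  exact ENNReal.toReal_le_of_le_ofReal zero_le_one (by rw [ENNReal.ofReal_one]; exact prob_le_one)

/-- the truncation -/
noncomputable def tf (n : ℕ) : BoundedContinuousFunction ℝ ℝ :=
  BoundedContinuousFunction.ofNormedAddCommGroup (fun y : ℝ => max 0 (min y n))
    (by fun_prop) (n : ℝ) (fun y => by
      rw [Real.norm_eq_abs, abs_of_nonneg (le_max_left _ _)]
      exact max_le (Nat.cast_nonneg n) (min_le_right _ _))

theorem tf_apply (n : ℕ) (y : ℝ) : tf n y = max 0 (min y n) := rfl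

theorem key_pt (n : ℕ) (X T : ℝ) (hX : 0 ≤ X) (hT : 0 ≤ T) :
    tf n X ≤ X * T + n * |T - 1| := by
  rw [tf_apply]
  have hn : (0 : ℝ) ≤ n := Nat.cast_nonneg n
  have hm : 0 ≤ min X n := le_min hX hn
  rw [max_eq_right hm]
  have h1 : min X n * T ≤ X * T := mul_le_mul_of_nonneg_right (min_le_left _ _) hT
  have h2 : min X n * (1 - T) ≤ n * |T - 1| := by
    have h3 : 1 - T ≤ |T - 1| := by
      rw [abs_sub_comm]
      exact le_abs_self _
    calc min X n * (1 - T) ≤ min X n * |T - 1| := mul_le_mul_of_nonneg_left h3 hm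
      _ ≤ n * |T - 1| := mul_le_mul_of_nonneg_right (min_le_right _ _) (abs_nonneg _)
  nlinarith

theorem t_FIN : Pool.Agent.Run7.h717.SB.S_FIN := by
  intro hSPH hCZ hTLL hINT hId
  rintro ⟨ν, hν, hlim, hmean⟩
  have hc : 0 < c0 := hCZ
  set t : ℕ → ℝ := fun d => ∫ x, |‖∑ i, x i‖ ^ 2 / (d : ℝ) ^ 2 - 1| ∂(GG d d) with ht
  have hle : ∀ n d : ℕ, 1 ≤ d →
      ∫ x, tf n (2 ^ d * solid x) ∂(Measure.pi fun _ : Fin d => unif d) ≤
        1 - c0 * (1 - 1 / (d : ℝ)) + n * t d := by
    intro n d hd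
    obtain ⟨ms, ma, hmap⟩ := hSPH d hd
    have hd0 : (0 : ℝ) < d := by exact_mod_cast hd
    have hf : Continuous fun y : ℝ => tf n (2 ^ d * y) := by
      simp only [tf_apply]
      fun_prop
    have e1 : ∫ x, tf n (2 ^ d * solid x) ∂(Measure.pi fun _ : Fin d => unif d) =
        ∫ x : Fin d → E d, tf n (2 ^ d * ang x) ∂(GG d d) := by
      have a1 := integral_map (μ := Measure.pi fun _ : Fin d => unif d) (φ := solid) ms
        (f := fun y : ℝ => tf n (2 ^ d * y)) hf.aestronglyMeasurable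
      have a2 := integral_map (μ := GG d d) (φ := fun x : Fin d → E d => ang x) ma
        (f := fun y : ℝ => tf n (2 ^ d * y)) hf.aestronglyMeasurable
      rw [← a1, hmap, a2]
    rw [e1]
    have iS := hINT d
    have i1 : Integrable (fun x : Fin d → E d => ang x * ‖∑ i, x i‖ ^ 2) (GG d d) := by
      refine iS.mono (ma.aestronglyMeasurable.mul iS.aestronglyMeasurable)
        (Eventually.of_forall fun x => ?_)
      rw [norm_mul, Real.norm_of_nonneg (ang_nonneg x)]
      exact mul_le_of_le_one_left (norm_nonneg _) (ang_le x)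
    have i2 : Integrable (fun x : Fin d → E d => |‖∑ i, x i‖ ^ 2 / (d : ℝ) ^ 2 - 1|) (GG d d) :=
      ((iS.div_const _).sub (integrable_const 1)).abs
    have i3 : Integrable (fun x : Fin d → E d => tf n (2 ^ d * ang x)) (GG d d) := by
      refine Integrable.mono' (integrable_const (n : ℝ))
        (hf.comp_aestronglyMeasurable ma.aestronglyMeasurable) (Eventually.of_forall fun x => ?_)
      rw [tf_apply, Real.norm_eq_abs, abs_of_nonneg (le_max_left _ _)]
      exact max_le (Nat.cast_nonneg n) (min_le_right _ _)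
    have i4 : Integrable (fun x : Fin d → E d =>
        2 ^ d / (d : ℝ) ^ 2 * (ang x * ‖∑ i, x i‖ ^ 2) +
          n * |‖∑ i, x i‖ ^ 2 / (d : ℝ) ^ 2 - 1|) (GG d d) :=
      (i1.const_mul _).add (i2.const_mul _)
    have h5 : ∫ x : Fin d → E d, tf n (2 ^ d * ang x) ∂(GG d d) ≤
        ∫ x : Fin d → E d, (2 ^ d / (d : ℝ) ^ 2 * (ang x * ‖∑ i, x i‖ ^ 2) +
          n * |‖∑ i, x i‖ ^ 2 / (d : ℝ) ^ 2 - 1|) ∂(GG d d) := by
      refine integral_mono i3 i4 fun x => ?_
      have h6 := key_pt n (2 ^ d * ang x) (‖∑ i, x i‖ ^ 2 / (d : ℝ) ^ 2)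
        (mul_nonneg (by positivity) (ang_nonneg x)) (by positivity)
      have h7 : 2 ^ d * ang x * (‖∑ i, x i‖ ^ 2 / (d : ℝ) ^ 2) =
          2 ^ d / (d : ℝ) ^ 2 * (ang x * ‖∑ i, x i‖ ^ 2) := by
        field_simp
      rw [h7] at h6
      exact h6
    refine h5.trans (le_of_eq ?_)
    rw [integral_add (i1.const_mul _) (i2.const_mul _), integral_const_mul, integral_const_mul]
    have h8 := hId d
    have h9 : 2 ^ d / (d : ℝ) ^ 2 * ∫ x : Fin d → E d, ang x * ‖∑ i, x i‖ ^ 2 ∂(GG d d) =
        1 - c0 * (1 - 1 / (d : ℝ)) := by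
      rw [div_mul_eq_mul_div, h8]
      field_simp
    rw [h9]
  have hlimb : ∀ n : ℕ, Tendsto (fun d : ℕ => 1 - c0 * (1 - 1 / (d : ℝ)) + n * t d) atTop
      (𝓝 (1 - c0)) := by
    intro n
    have h1 : Tendsto (fun d : ℕ => 1 / (d : ℝ)) atTop (𝓝 0) := tendsto_one_div_atTop_nhds_zero_nat
    have h2 : Tendsto t atTop (𝓝 0) := hTLL
    have h3 := ((tendsto_const_nhds (x := (1 : ℝ))).sub
      (((tendsto_const_nhds (x := (1 : ℝ))).sub h1).const_mul c0)).add (h2.const_mul (n : ℝ))
    simpa using h3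
  have hn : ∀ n : ℕ, ∫ y, tf n y ∂ν ≤ 1 - c0 := by
    intro n
    refine le_of_tendsto_of_tendsto (hlim (tf n)) (hlimb n) ?_
    filter_upwards [eventually_ge_atTop 1] with d hd
    exact hle n d hd
  have hint : Integrable (fun y : ℝ => y) ν := by
    by_contra h
    rw [integral_undef h] at hmean
    exact zero_ne_one hmean
  have hdc : Tendsto (fun n : ℕ => ∫ y, tf n y ∂ν) atTop (𝓝 (∫ y, max 0 y ∂ν)) := by
    refine tendsto_integral_of_dominated_convergence (fun y => |y|)
      (fun n => (tf n).continuous.aestronglyMeasurable) hint.abs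
      (fun n => Eventually.of_forall fun y => ?_) (Eventually.of_forall fun y => ?_)
    · rw [tf_apply, Real.norm_eq_abs, abs_of_nonneg (le_max_left _ _)]
      exact max_le (abs_nonneg _) ((min_le_left _ _).trans (le_abs_self _))
    · obtain ⟨N, hN⟩ := exists_nat_ge y
      refine tendsto_const_nhds.congr' ?_
      filter_upwards [eventually_ge_atTop N] with n hnN
      rw [tf_apply, min_eq_left]
      exact hN.trans (by exact_mod_cast hnN)
  have h1 : ∫ y, max 0 y ∂ν ≤ 1 - c0 := le_of_tendsto' hdc hn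
  have h2 : ∫ y, y ∂ν ≤ ∫ y, max 0 y ∂ν := by
    refine integral_mono hint ?_ fun y => le_max_right _ _
    have : Integrable (fun y : ℝ => max 0 y) ν := by
      refine hint.abs.mono' (by fun_prop) (Eventually.of_forall fun y => ?_)
      rw [Real.norm_eq_abs, abs_of_nonneg (le_max_left _ _)]
      exact max_le (abs_nonneg _) (le_abs_self _)
    exact this
  linarith

end Run7.h531.SB
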